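import Mathlib
import Pool.Agent.Helper88.PhiT
import Pool.Agent.Helper62.Phi4.KillD
import Pool.Agent.Helper62.Phi4.KillVal
import Pool.Agent.Helper62.Phi4.KillVal2

set_option autoImplicit false

/-!
# MP_9074a0_an: no breathers of the phi^4 equation around +1 and -1 outside a thin explicit set of
periods
-/

namespace Pool.Agent.Results.MP_9074a0_an.ResonantPeriods

open Real Phi4

/-- The periods `T` that are not covered: `T ^ 2 = 2 π ^ 2 M` with a natural number `M ≥ 28` and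
`3 M = 4 n ^ 2 - m ^ 2` for some `1 ≤ m < n` such that the exponent of `2` in `n` is at most the
exponent of `2` in `m`, the exponents of `3` in `n` and `m` are equal, `M` is `1` modulo `3` or
divisible by `9` or `5 m ^ 2 - 4 n ^ 2` is a square, and the pair test fails for some subset `X` of
`{1, ..., n}` which contains `n`. -/
def Exceptional (T : ℝ) : Prop :=
  ∃ (M m n : ℕ) (X : Finset ℕ), T ^ 2 = 2 * π ^ 2 * M ∧ 28 ≤ M ∧ 1 ≤ m ∧ m < n ∧
    3 * M + m ^ 2 = 4 * n ^ 2 ∧ padicValNat 2 n ≤ padicValNat 2 m ∧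
    padicValNat 3 n = padicValNat 3 m ∧
    (M % 3 = 1 ∨ 9 ∣ M ∨ ∃ l : ℕ, 5 * m ^ 2 = 4 * n ^ 2 + l ^ 2) ∧
    n ∈ X ∧ X ⊆ Finset.Icc 1 n ∧ ¬ PairTest (3 * M) n X

/-- For every period `T > 0` that is not exceptional, the only breather-solutions around `1` and
`-1` are the constants. -/
theorem result (T : ℝ) (hT : 0 < T) (hex : ¬ Exceptional T) :
    Breathers T 1 = {fun _ _ => 1} ∧ Breathers T (-1) = {fun _ _ => -1} := by
  apply breathers_of_kill hT
  intro N m n h1 h2 h3 h4 X h5 h6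
  have hXn : ∀ j ∈ X, j ≤ n := fun j hj => (h6 j hj).2
  by_cases hv2 : padicValNat 2 m < padicValNat 2 n
  · exact Pool.Agent.Helper62.Phi4.kill_val2 h1 h2 h3 hv2 h5 hXn
  by_cases hv3 : padicValNat 3 n ≠ padicValNat 3 m
  · exact Pool.Agent.Helper62.Phi4.kill_val3 h1 h2 h3 hv3 h5 hXn
  by_cases h3N : 3 ∣ N
  · obtain ⟨M, rfl⟩ := h3N
    by_cases hM : 28 ≤ M
    · by_cases hD : M % 3 = 1 ∨ 9 ∣ M ∨ ∃ l : ℕ, 5 * m ^ 2 = 4 * n ^ 2 + l ^ 2
      · rw [← pairTest_iff h2 h3 h5 hXn]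
        by_contra hc
        refine hex ⟨M, m, n, X, ?_, hM, h1, h2, h3, not_lt.1 hv2, not_not.1 hv3, hD, h5,
          fun j hj => Finset.mem_Icc.2 (h6 j hj), hc⟩
        rw [h4]
        push_cast
        ring
      · push Not at hD
        exact Pool.Agent.Helper62.Phi4.kill_D h2 h3 rfl hD.1 (by omega) hD.2.2 h5 hXn
    · have hn5 : n ≤ 5 := by
        by_contra hc
        push Not at hc
        have hm : m ^ 2 < n ^ 2 := Nat.pow_lt_pow_left h2 (by norm_num)
        nlinarith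
      apply Pool.Agent.Helper35.Phi4.kill_seven' h2 h3 _ h5 hXn
      interval_cases n <;> interval_cases m <;> omega
  · exact Pool.Agent.Helper35.Phi4.kill_three h2 h3 h3N h5 hXn

end Pool.Agent.Results.MP_9074a0_an.ResonantPeriods
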